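import Pool.Agent.Lib.MP_305fdd_al.To.Mx.Tw
import Pool.Agent.Lib.MP_305fdd_al.To.Ch.Pos

/-! # MP_305fdd_al : torsion room: the representation of a chart datum is maximal -/

set_option autoImplicit false

namespace Pool.Agent.ToMx

open Real Pool.Agent.ToC Pool.Agent.ToEu Pool.Agent.Su

/-- a positive sine modulo `2` -/
theorem exists_shift {t : ℝ} (h : 0 < sin (π * t)) : ∃ m : ℤ, 0 < t + 2 * m ∧ t + 2 * m < 1 := by
  refine ⟨-⌊t / 2⌋, ?_⟩
  have h1 := Int.floor_le (t / 2)
  have h2 := Int.lt_floor_add_one (t / 2)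
  push_cast
  set s := t + 2 * -(⌊t / 2⌋ : ℝ) with hs
  have hs0 : 0 ≤ s := by rw [hs]; linarith
  have hs2 : s < 2 := by rw [hs]; linarith
  have h3 : sin (π * t) = sin (π * s) := by
    have : π * t = π * s + (⌊t / 2⌋ : ℤ) * (2 * π) := by rw [hs]; ring
    rw [this, sin_add_int_mul_two_pi]
  rw [h3] at h
  have hpi := pi_pos
  constructor
  · rcases hs0.eq_or_lt with h4 | h4
    · rw [← h4] at h
      simp at h
    · exact h4
  · by_contra h4
    push Not at h4
    have h5 : sin (π * s) ≤ 0 := by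
      have h6 : 0 ≤ sin (π * s - π) := by
        apply sin_nonneg_of_nonneg_of_le_pi
        · nlinarith
        · nlinarith
      rw [sin_sub_pi] at h6
      linarith
    linarith

theorem sin_neg_of {t : ℝ} (h1 : 1 < t) (h2 : t < 2) : sin (π * t) < 0 := by
  have hpi := pi_pos
  have h6 : 0 < sin (π * t - π) := by
    apply sin_pos_of_pos_of_lt_pi
    · nlinarith
    · nlinarith
  rw [sin_sub_pi] at h6
  linarith

theorem dt_ev_neg {x y : ℝ} (h1 : x + 1 < y) (h2 : y < x + 2) : dt (ev x) (ev y) < 0 := by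
  rw [dt_ev]
  exact sin_neg_of (by linarith) (by linarith)

/-- **Lifting a positive antiperiodic sequence of vectors.** -/
theorem poly_lift {k : ℕ} (hk : 2 ≤ k) {ν : ℤ → Fin 2 → ℝ} (hper : ∀ j, ν (j + k) = - ν j)
    (hpos : ∀ i j : ℤ, i < j → j < i + k → 0 ≤ dt (ν i) (ν j))
    (h1 : ∀ j, 0 < dt (ν j) (ν (j + 1))) :
    ∃ V : ℤ → ℝ, (∀ j, V j < V (j + 1)) ∧ (∀ j, V (j + 1) < V j + 1) ∧
      (∀ j, V (j + k) = V j + 1) ∧ ∀ j, ∃ c : ℝ, 0 < c ∧ ν j = c • ev (V j) := by
  have hne : ∀ j, ν j ≠ 0 := fun j h => by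
    have := h1 j
    rw [h] at this
    simp [dt] at this
  choose c x hc hx using fun j => exists_ev (hne j)
  have hsin : ∀ j, 0 < sin (π * (x (j + 1) - x j)) := by
    intro j
    have h2 := h1 j
    rw [hx j, hx (j + 1), dt_smul_left, dt_smul_right, dt_ev] at h2
    have h3 := hc j
    have h4 := hc (j + 1)
    by_contra h5
    push Not at h5
    have : c j * (c (j + 1) * sin (π * (x (j + 1) - x j))) ≤ 0 := by
      rw [← mul_assoc]
      exact mul_nonpos_of_nonneg_of_nonpos (by positivity) h5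
    linarith
  choose m hm1 hm2 using fun j => exists_shift (hsin j)
  -- the partial sums
  obtain ⟨G, hG0, hGs⟩ := exists_partial (X := Multiplicative ℝ)
    (fun j : ℤ => Multiplicative.ofAdd (x j - x (j - 1) + 2 * (m (j - 1) : ℝ)))
  set V : ℤ → ℝ := fun j => x (-1) + Multiplicative.toAdd (G j) with hV
  have hVs : ∀ j, V (j + 1) = V j + (x (j + 1) - x j + 2 * m j) := by
    intro j
    simp only [hV]
    rw [hGs (j + 1), toAdd_mul, toAdd_ofAdd, add_sub_cancel_right]
    ring
  have hVx : ∀ j, ∃ n : ℤ, V j = x j + 2 * n := by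
    have h0 : V (-1) = x (-1) := by simp only [hV]; rw [hG0]; simp
    intro j
    have key : ∀ i : ℤ, ∃ n : ℤ, V (i - 1) = x (i - 1) + 2 * n := by
      intro i
      induction i using Int.induction_on with
      | zero => exact ⟨0, by simp only [zero_sub]; rw [h0]; simp⟩
      | succ i ih =>
        obtain ⟨n, hn⟩ := ih
        refine ⟨n + m (i - 1), ?_⟩
        have h2 := hVs ((i : ℤ) - 1)
        rw [sub_add_cancel] at h2
        rw [add_sub_cancel_right, h2, hn]
        push_cast
        ring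
      | pred i ih =>
        obtain ⟨n, hn⟩ := ih
        refine ⟨n - m (-(i : ℤ) - 1 - 1), ?_⟩
        have h2 := hVs (-(i : ℤ) - 1 - 1)
        rw [sub_add_cancel] at h2
        push_cast
        linarith
    obtain ⟨n, hn⟩ := key (j + 1)
    rw [add_sub_cancel_right] at hn
    exact ⟨n, hn⟩
  have hνV : ∀ j, ν j = c j • ev (V j) := by
    intro j
    obtain ⟨n, hn⟩ := hVx j
    rw [hn, ev_add_two_int]
    exact hx j
  have hlt : ∀ j, V j < V (j + 1) := fun j => by rw [hVs]; linarith [hm1 j]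
  have hlt1 : ∀ j, V (j + 1) < V j + 1 := fun j => by rw [hVs]; linarith [hm2 j]
  have hmono : StrictMono V := strictMono_int_of_lt_succ hlt
  have hodd : ∀ i, ∃ n : ℤ, V (i + k) = V i + 1 + 2 * n := by
    intro i
    have h2 := hper i
    rw [hνV i, hνV (i + k), ← smul_neg, ← ev_add_one] at h2
    have h3 : ev (V (i + k)) = (c i / c (i + k)) • ev (V i + 1) := by
      funext l
      have := congrFun h2 l
      simp only [Pi.smul_apply, smul_eq_mul] at this ⊢
      have := (hc (i + k)).ne'
      field_simp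
      linarith
    exact ev_inj (div_pos (hc _) (hc _)) h3
  have hsg : ∀ i j : ℤ, i < j → j < i + k → 0 ≤ dt (ev (V i)) (ev (V j)) := by
    intro i j h2 h3
    have h4 := hpos i j h2 h3
    rw [hνV i, hνV j, dt_smul_left, dt_smul_right] at h4
    by_contra h5
    push Not at h5
    have h6 : c i * (c j * dt (ev (V i)) (ev (V j))) < 0 := by
      have := hc i
      have := hc j
      exact mul_neg_of_pos_of_neg (hc i) (mul_neg_of_pos_of_neg (hc j) h5)
    linarith
  have hP : ∀ (i : ℤ) (n : ℕ), n < k → V (i + n) < V i + 1 := by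
    intro i n
    induction n with
    | zero => intro _; simp
    | succ n ih =>
      intro hn
      have h2 := ih (by omega)
      have h3 : V (i + (n + 1 : ℕ)) < V i + 2 := by
        have := hlt1 (i + n)
        rw [show i + ((n + 1 : ℕ) : ℤ) = i + n + 1 by push_cast; ring]
        linarith
      rcases lt_trichotomy (V (i + (n + 1 : ℕ))) (V i + 1) with h4 | h4 | h4
      · exact h4
      · exfalso
        have h5 := hlt (i + (n + 1 : ℕ))
        have h6 := hlt1 (i + (n + 1 : ℕ))
        rw [show i + ((n + 1 : ℕ) : ℤ) + 1 = i + ((n + 2 : ℕ) : ℤ) by push_cast; ring] at h5 h6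
        rcases Nat.lt_or_ge (n + 2) k with h7 | h7
        · have h8 := hsg i (i + (n + 2 : ℕ)) (by omega) (by omega)
          have h9 : dt (ev (V i)) (ev (V (i + (n + 2 : ℕ)))) < 0 :=
            dt_ev_neg (by linarith) (by linarith)
          linarith
        · obtain ⟨q, hq⟩ := hodd i
          have h8 : n + 2 = k := by omega
          rw [h8] at h5 h6
          rw [hq] at h5 h6
          have h9 : (0 : ℝ) < ((2 * q : ℤ) : ℝ) := by push_cast; linarith
          have h10 : ((2 * q : ℤ) : ℝ) < 1 := by push_cast; linarith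
          have h11 : 0 < 2 * q := by exact_mod_cast h9
          have h12 : 2 * q < 1 := by exact_mod_cast h10
          omega
      · exfalso
        have h8 := hsg i (i + (n + 1 : ℕ)) (by omega) (by omega)
        have h9 : dt (ev (V i)) (ev (V (i + (n + 1 : ℕ)))) < 0 :=
          dt_ev_neg (by linarith) (by linarith)
        linarith
  refine ⟨V, hlt, hlt1, fun j => ?_, fun j => ⟨c j, hc j, hνV j⟩⟩
  obtain ⟨q, hq⟩ := hodd j
  have h2 := hP j (k - 1) (by omega)
  have h3 := hlt1 (j + (k - 1 : ℕ))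
  rw [show j + ((k - 1 : ℕ) : ℤ) + 1 = j + k by omega] at h3
  have h4 := hmono (show j < j + k by omega)
  rw [hq] at h3 h4 ⊢
  have h9 : (-1 : ℝ) < ((2 * q : ℤ) : ℝ) := by push_cast; linarith
  have h10 : ((2 * q : ℤ) : ℝ) < 1 := by push_cast; linarith
  have h11 : -1 < 2 * q := by exact_mod_cast h9
  have h12 : 2 * q < 1 := by exact_mod_cast h10
  have h13 : q = 0 := by omega
  rw [h13]
  simp

/-- two lifts of the same matrix with fixed points are equal -/
theorem lift_eq {A : SL2} {f f' : CircleDeg1Liftˣ} (hf : (A, f) ∈ Tld) (hf' : (A, f') ∈ Tld)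
    {x y : ℝ} (hx : (f : CircleDeg1Lift) x = x) (hy : (f' : CircleDeg1Lift) y = y) : f = f' := by
  obtain ⟨k, rfl⟩ := lift_unique hf hf'
  rw [u_mul_apply, zt_apply] at hy
  have h3 := disp_lt f x y
  have h4 := disp_lt f y x
  rw [hx] at h3 h4
  have h5 : (-1 : ℝ) < ((2 * k : ℤ) : ℝ) := by linarith
  have h6 : ((2 * k : ℤ) : ℝ) < 1 := by linarith
  have h7 : -1 < 2 * k := by exact_mod_cast h5
  have h8 : 2 * k < 1 := by exact_mod_cast h6
  have h9 : k = 0 := by omega
  rw [h9, mul_zero, zt_zero, one_mul]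

/-- **The representation of a chart datum is maximal.** -/
theorem chart_max {S : Subsemiring ℝ} (hS : ∀ x, x ∈ S ↔ 0 ≤ x) {g : ℕ} (hg : 1 ≤ g)
    (D : Dat S g) : eu D.rho = 2 * g - 2 := by
  -- positivity
  have hle : ∀ j, 0 < dt (D.nu j) (D.nu (j + 1)) := by
    intro j
    have h1 := (hS _).1 (D.nu_pos j (j + 1) (by omega) (by omega))
    refine lt_of_le_of_ne h1 fun h2 => ?_
    have := D.lei_mul j
    rw [← h2, zero_mul] at this
    exact zero_ne_one this
  have hmu : ∀ j, 0 < D.mu j := by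
    intro j
    have h1 := (hS _).1 (D.mu_mem j)
    refine lt_of_le_of_ne h1 fun h2 => ?_
    have := D.mu_mul j
    rw [← h2, zero_mul] at this
    exact zero_ne_one this
  have hwe : ∀ j, 0 < dt (D.w (j + 1)) (D.w j) := by
    intro j
    have h1 := D.edge j
    have h2 := hle j
    rw [← h1] at h2
    exact pos_of_mul_pos_right h2 (hmu j).le
  obtain ⟨V, hV1, hV2, hV3, hV4⟩ := poly_lift (k := 2 * g) (by omega) (ν := D.nu)
    (fun j => by
      have := D.nu_per j
      push_cast
      exact this)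
    (fun i j h1 h2 => (hS _).1 (D.nu_pos i j h1 (by push_cast at h2; exact h2))) hle
  obtain ⟨W, hW1, hW2, hW3, hW4⟩ := poly_lift (k := 2 * g) (by omega) (ν := fun j => D.w (-j))
    (fun j => by
      have := D.w_per (-j - 2 * g)
      rw [sub_add_cancel] at this
      rw [show -(j + ((2 * g : ℕ) : ℤ)) = -j - 2 * g by push_cast; ring, this, neg_neg])
    (fun i j h1 h2 => (hS _).1 (D.w_pos (-j) (-i) (by omega) (by push_cast at h2; omega)))
    (fun j => by
      have := hwe (-j - 1)
      rw [sub_add_cancel] at this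
      rw [show -(j + 1) = -j - 1 by ring]
      exact this)
  set om : ℤ → ℝ := fun j => W (-j) with hom
  have hom1 : ∀ j, om (j + 1) < om j := fun j => by
    have := hW1 (-(j + 1))
    simp only [hom]
    rwa [show -(j + 1) + 1 = -j by ring] at this
  have hom2 : ∀ j, om j < om (j + 1) + 1 := fun j => by
    have := hW2 (-(j + 1))
    simp only [hom]
    rwa [show -(j + 1) + 1 = -j by ring] at this
  have hom3 : ∀ j, om (j + 2 * g) = om j - 1 := fun j => by
    have := hW3 (-j - 2 * g)
    push_cast at this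
    rw [sub_add_cancel] at this
    simp only [hom]
    rw [show -(j + 2 * (g : ℤ)) = -j - 2 * g by ring]
    linarith
  have hom4 : ∀ j, ∃ c : ℝ, 0 < c ∧ D.w j = c • ev (om j) := fun j => by
    have := hW4 (-j)
    rwa [neg_neg] at this
  -- the lifts of the maps `G j`
  have hlift : ∀ j, ∃ F : CircleDeg1Liftˣ, (D.G j, F) ∈ Tld ∧ (F : CircleDeg1Lift) (V j) = om j := by
    intro j
    obtain ⟨F, hF⟩ := exists_lift (D.G j)
    obtain ⟨c, hc, h1⟩ := ac_ev hF (V j)
    obtain ⟨a, ha, h2⟩ := hV4 j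
    obtain ⟨b, hb, h3⟩ := hom4 j
    have h4 := D.G_nu j
    rw [h2, h3, ac_smul, h1, smul_smul, smul_smul] at h4
    have h5 : ev (om j) = (a * c / (D.mu j * b)) • ev ((F : CircleDeg1Lift) (V j)) := by
      funext i
      have := congrFun h4 i
      simp only [Pi.smul_apply, smul_eq_mul] at this ⊢
      have := (hmu j).ne'
      field_simp
      linarith
    obtain ⟨m, hm⟩ := ev_inj (by have := hmu j; positivity) h5
    refine ⟨zt (2 * m) * F, ?_, ?_⟩
    · have := Tld.mul_mem (even_mem m) hF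
      rwa [Prod.mk_mul_mk, one_mul] at this
    · rw [u_mul_apply, zt_apply]
      push_cast
      linarith
  choose F hF hFV using hlift
  have hFV' : ∀ j, (F j : CircleDeg1Lift) (V (j + 1)) = om (j + 1) + 1 := by
    intro j
    obtain ⟨c, hc, h1⟩ := ac_ev (hF j) (V (j + 1))
    obtain ⟨a, ha, h2⟩ := hV4 (j + 1)
    obtain ⟨b, hb, h3⟩ := hom4 (j + 1)
    have h4 := D.G_nu' j
    rw [h2, h3, ac_smul, h1, smul_smul, ← smul_neg, ← ev_add_one] at h4
    have h5 : ev ((F j : CircleDeg1Lift) (V (j + 1))) = (b / (a * c)) • ev (om (j + 1) + 1) := by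
      funext i
      have := congrFun h4 i
      simp only [Pi.smul_apply, smul_eq_mul] at this ⊢
      field_simp
      linarith
    obtain ⟨m, hm⟩ := ev_inj (by positivity) h5
    have h6 := u_strictMono (F j) (hV1 j)
    have h7 := u_strictMono (F j) (hV2 j)
    rw [CircleDeg1Lift.map_add_one] at h7
    rw [hFV, hm] at h6 h7
    have h8 := hom1 j
    have h9 := hom2 j
    have h10 : (-1 : ℝ) < ((2 * m : ℤ) : ℝ) := by push_cast; linarith
    have h11 : ((2 * m : ℤ) : ℝ) < 1 := by push_cast; linarith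
    have h12 : -1 < 2 * m := by exact_mod_cast h10
    have h13 : 2 * m < 1 := by exact_mod_cast h11
    have h14 : m = 0 := by omega
    rw [hm, h14]
    simp
  set f : ℤ → CircleDeg1Liftˣ := fun j => zt 1 * ((F (j - 1))⁻¹ * F j) with hf
  have hfT : ∀ j, (D.c j, f j) ∈ Tld := fun j =>
    neg_mem (Tld.mul_mem (Tld.inv_mem (hF (j - 1))) (hF j))
  have hfV : ∀ j, (f j : CircleDeg1Lift) (V j) = V j := by
    intro j
    simp only [hf]
    rw [u_mul_apply, u_mul_apply, zt_apply, hFV]
    have h1 := hFV' (j - 1)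
    rw [sub_add_cancel] at h1
    have h2 : om j = (F (j - 1) : CircleDeg1Lift) (V j - 1) := by
      have h3 := CircleDeg1Lift.map_sub_int (F (j - 1) : CircleDeg1Lift) (V j) 1
      push_cast at h3
      rw [h3, h1]
      ring
    rw [h2, CircleDeg1Lift.units_inv_apply_apply]
    push_cast
    ring
  have hprod : ∀ n : ℕ, (List.ofFn fun i : Fin n => f (i : ℕ)).prod =
      zt n * ((F (-1))⁻¹ * F (n - 1)) := by
    intro n
    induction n with
    | zero => simp [zt_zero]
    | succ n ih =>
      rw [List.ofFn_succ', List.concat_eq_append, List.prod_append, List.prod_singleton]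
      simp only [Fin.val_castSucc, Fin.val_last]
      rw [ih]
      simp only [hf]
      have h1 : zt ((n + 1 : ℕ) : ℤ) = zt n * zt 1 := by
        rw [← zt_add]
        push_cast
        rfl
      rw [h1, show ((n + 1 : ℕ) : ℤ) - 1 = n by push_cast; ring]
      have h2 := (zt_comm 1 ((F (-1))⁻¹ * F (n - 1))).eq
      calc zt n * ((F (-1))⁻¹ * F (n - 1)) * (zt 1 * ((F (n - 1))⁻¹ * F n))
          = zt n * (((F (-1))⁻¹ * F (n - 1)) * zt 1) * ((F (n - 1))⁻¹ * F n) := by
            simp only [mul_assoc]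
        _ = zt n * zt 1 * ((F (-1))⁻¹ * F n) := by
            rw [← h2]
            simp only [mul_assoc, mul_inv_cancel_left]
  have hFper : F (2 * g - 1) = F (-1) * zt (-2) := by
    have h1 : (D.G (-1), F (2 * g - 1)) ∈ Tld := by
      have := hF (2 * g - 1)
      rwa [show (2 * (g : ℤ) - 1) = -1 + 2 * g by ring, D.G_per] at this
    obtain ⟨k, hk⟩ := lift_unique (hF (-1)) h1
    have h2 := hFV (2 * g - 1)
    have h3 := hFV (-1)
    have h4 := hV3 (-1)
    have h5 := hom3 (-1)
    rw [show (-1 + 2 * (g : ℤ)) = 2 * g - 1 by ring] at h5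
    rw [show (-1 + ((2 * g : ℕ) : ℤ)) = 2 * g - 1 by push_cast; ring] at h4
    rw [h4, h5, CircleDeg1Lift.map_add_one, hk, u_mul_apply, zt_apply, h3] at h2
    have h6 : ((2 * k : ℤ) : ℝ) = ((-2 : ℤ) : ℝ) := by push_cast at h2 ⊢; linarith
    have h7 : 2 * k = -2 := by exact_mod_cast h6
    rw [hk, h7, (zt_comm _ _).eq]
  -- the Euler number
  choose bl hbl using fun i : Fin g => exists_lift (D.B (i : ℕ))
  refine eu_eq D.rho (a := fun i => f (2 * (i : ℕ))) (b := bl)
    (fun i => by rw [D.rho_a]; exact hfT _) (fun i => by rw [D.rho_b]; exact hbl i) ?_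
  have h1 : ∀ i : Fin g, bl i * (f (2 * (i : ℕ)))⁻¹ * (bl i)⁻¹ = f (2 * (i : ℕ) + 1) := by
    intro i
    refine lift_eq (A := D.c (2 * (i : ℕ) + 1))
      (x := (bl i : CircleDeg1Lift) (V (2 * (i : ℕ)))) (y := V (2 * (i : ℕ) + 1)) ?_ (hfT _) ?_
      (hfV _)
    · rw [← D.conj_B]
      exact Tld.mul_mem (Tld.mul_mem (hbl i) (Tld.inv_mem (hfT _))) (Tld.inv_mem (hbl i))
    · rw [u_mul_apply, u_mul_apply, CircleDeg1Lift.units_inv_apply_apply]
      congr 1
      conv_lhs => rw [← hfV (2 * (i : ℕ))]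
      rw [CircleDeg1Lift.units_inv_apply_apply]
  have h2 : cw (fun i : Fin g => f (2 * (i : ℕ))) bl =
      (List.ofFn fun i : Fin (2 * g) => f (i : ℕ)).prod := by
    rw [prod_pair, cw]
    congr 2
    funext i
    rw [← h1]
    simp only [mul_assoc]
  rw [h2, hprod]
  push_cast
  rw [hFper, inv_mul_cancel_left, ← zt_add]
  rfl

end Pool.Agent.ToMx
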