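import Pool.Agent.Lib.MP_305fdd_al.To.Mx.Vec

/-! # MP_305fdd_al : torsion room, maximal representations and charts: partial products over `ℤ` -/

set_option autoImplicit false

namespace Pool.Agent.ToMx

section
variable {X : Type*} [Group X]

/-- partial products over the integers -/
theorem exists_partial (x : ℤ → X) : ∃ G : ℤ → X, G (-1) = 1 ∧ ∀ j, G j = G (j - 1) * x j := by
  let P : ℕ → X := fun n => Nat.rec 1 (fun n y => y * x n) n
  have hP0 : P 0 = 1 := rfl
  have hPs : ∀ n, P (n + 1) = P n * x n := fun n => rfl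
  let N : ℕ → X := fun n => Nat.rec 1 (fun n y => y * (x (-1 - n))⁻¹) n
  have hN0 : N 0 = 1 := rfl
  have hNs : ∀ n, N (n + 1) = N n * (x (-1 - n))⁻¹ := fun n => rfl
  refine ⟨fun j => if 0 ≤ j + 1 then P (j + 1).toNat else N (-(j + 1)).toNat, ?_, fun j => ?_⟩
  · simp [hP0]
  · beta_reduce
    rcases lt_trichotomy j (-1) with h | h | h
    · rw [if_neg (by omega), if_neg (by omega)]
      have h1 : (-(j - 1 + 1)).toNat = (-(j + 1)).toNat + 1 := by omega
      rw [h1, hNs]
      have h2 : -1 - (((-(j + 1)).toNat : ℕ) : ℤ) = j := by omega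
      rw [h2, inv_mul_cancel_right]
    · subst h
      rw [if_pos (by omega), if_neg (by omega)]
      have h1 : (-(-1 - 1 + 1) : ℤ).toNat = 0 + 1 := by omega
      rw [h1, hNs, hN0]
      have h2 : -1 - ((0 : ℕ) : ℤ) = -1 := by omega
      rw [h2, inv_mul_cancel_right]
      simp [hP0]
    · rw [if_pos (by omega), if_pos (by omega)]
      have h1 : (j + 1).toNat = (j - 1 + 1).toNat + 1 := by omega
      rw [h1, hPs]
      have h2 : (((j - 1 + 1).toNat : ℕ) : ℤ) = j := by omega
      rw [h2]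

theorem partial_nat {x G : ℤ → X} (h0 : G (-1) = 1) (h : ∀ j, G j = G (j - 1) * x j) (n : ℕ) :
    G (n - 1) = (List.ofFn fun i : Fin n => x (i : ℕ)).prod := by
  induction n with
  | zero => simpa using h0
  | succ n ih =>
    rw [List.ofFn_succ', List.concat_eq_append, List.prod_append, List.prod_singleton]
    simp only [Fin.val_castSucc, Fin.val_last]
    rw [← ih]
    have h1 : ((n + 1 : ℕ) : ℤ) - 1 = n := by push_cast; ring
    rw [h1, h n]

theorem partial_per {x G : ℤ → X} (h0 : G (-1) = 1) (h : ∀ j, G j = G (j - 1) * x j) {m : ℤ}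
    (hx : ∀ j, x (j + m) = x j) {z : X} (hz : ∀ y, Commute z y) (hm : G (m - 1) = z) (j : ℤ) :
    G (j + m) = G j * z := by
  induction j using Int.induction_on with
  | zero =>
    have h1 := h (0 + m)
    rw [show (0 : ℤ) + m - 1 = m - 1 by ring, hm, hx] at h1
    rw [h1, h 0]
    simp only [zero_sub]
    rw [h0, one_mul, (hz _).eq]
  | succ i ih =>
    have h1 := h ((i : ℤ) + 1 + m)
    rw [show (i : ℤ) + 1 + m - 1 = i + m by ring, ih, show (i : ℤ) + 1 + m = (i + 1) + m by ring,
      hx] at h1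
    rw [h1]
    have h2 := h ((i : ℤ) + 1)
    rw [add_sub_cancel_right] at h2
    rw [h2, mul_assoc, mul_assoc, (hz _).eq]
  | pred i ih =>
    have h1 := h (-(i : ℤ) + m)
    rw [hx, ih] at h1
    have h2 := h (-(i : ℤ))
    rw [show -(i : ℤ) - 1 + m = -(i : ℤ) + m - 1 by ring]
    have h3 : G (-(i : ℤ) + m - 1) = G (-(i : ℤ)) * z * (x (-(i : ℤ)))⁻¹ := by
      rw [h1, mul_inv_cancel_right]
    rw [h3, h2, mul_assoc, mul_assoc, (hz (x _)⁻¹).eq, mul_inv_cancel_left]

end

end Pool.Agent.ToMx
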