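import Pool.Agent.Lib.MP_305fdd_al.To.Mx.Tw

/-! # MP_305fdd_al : torsion room: a maximal representation has a chart datum -/

set_option autoImplicit false

namespace Pool.Agent.ToMx

open Real Pool.Agent.ToC Pool.Agent.ToEu Pool.Agent.Su

/-- the index of the pair -/
def idx (g : ℕ) (hg : 0 < g) (j : ℤ) : Fin g :=
  ⟨((j % (2 * g)) / 2).toNat, by
    have h1 := Int.emod_nonneg j (show (2 * g : ℤ) ≠ 0 by omega)
    have h2 := Int.emod_lt_of_pos j (show (0 : ℤ) < 2 * g by omega)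
    omega⟩

theorem idx_per {g : ℕ} (hg : 0 < g) (j : ℤ) : idx g hg (j + 2 * g) = idx g hg j := by
  unfold idx
  congr 3
  rw [Int.add_emod_right]

theorem idx_even {g : ℕ} (hg : 0 < g) (i : Fin g) : idx g hg (2 * ((i : ℕ) : ℤ)) = i := by
  unfold idx
  apply Fin.ext
  have h1 : (2 * ((i : ℕ) : ℤ)) % (2 * g) = 2 * ((i : ℕ) : ℤ) :=
    Int.emod_eq_of_lt (by omega) (by have := i.2; omega)
  simp only [h1]
  omega

theorem idx_odd {g : ℕ} (hg : 0 < g) (i : ℤ) : idx g hg (2 * i + 1) = idx g hg (2 * i) := by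
  unfold idx
  apply Fin.ext
  have h1 := Int.emod_nonneg (2 * i) (show (2 * g : ℤ) ≠ 0 by omega)
  have h2 := Int.emod_lt_of_pos (2 * i) (show (0 : ℤ) < 2 * g by omega)
  have h3 : (2 * i) % (2 * g) = 2 * (i % g) := by
    rw [Int.mul_emod_mul_of_pos _ _ (by norm_num)]
  have h4 : (2 * i + 1) % (2 * g) = 2 * (i % g) + 1 := by
    have h5 := Int.emod_add_mul_ediv i g
    have h6 := Int.emod_lt_of_pos i (show (0 : ℤ) < g by omega)
    have h7 := Int.emod_nonneg i (show (g : ℤ) ≠ 0 by omega)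
    have : 2 * i + 1 = (2 * (i % g) + 1) + (2 * g) * (i / g) := by linarith
    rw [this, Int.add_mul_emod_self_left, Int.emod_eq_of_lt (by omega) (by omega)]
  simp only [h3, h4]
  omega

theorem par_per {g : ℕ} (j : ℤ) : (j + 2 * g) % 2 = j % 2 := by omega

/-- a vector with vanishing determinant against a basis vector -/
theorem eq_smul_of_dt {p q v : Fin 2 → ℝ} (h : dt p q = 1) (hv : dt p v = 0) :
    v = dt v q • p := by
  simp only [dt] at h hv
  funext i
  fin_cases i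
  · simp only [Fin.zero_eta, Fin.isValue, Pi.smul_apply, smul_eq_mul, dt]
    linear_combination (-(v 0)) * h + q 0 * hv
  · simp only [Fin.mk_one, Fin.isValue, Pi.smul_apply, smul_eq_mul, dt]
    linear_combination (-(v 1)) * h + q 1 * hv

theorem dt_eig {A : SL2} {l : ℝ} (hl : 1 < l) {p v : Fin 2 → ℝ} (hp : ac A p = l • p)
    (hv : ac A v = l • v) : dt p v = 0 := by
  have h1 := dt_ac A p v
  rw [hp, hv, dt_smul_left, dt_smul_right] at h1
  have h2 : (l * l - 1) * dt p v = 0 := by linarith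
  rcases mul_eq_zero.1 h2 with h | h
  · nlinarith
  · exact h

theorem dt_eig' {A : SL2} {l : ℝ} (hl : 1 < l) {q v : Fin 2 → ℝ} (hq : ac A q = l⁻¹ • q)
    (hv : ac A v = l⁻¹ • v) : dt q v = 0 := by
  have hl0 : 0 < l := by linarith
  have e1 : ∀ x, ac A x = l⁻¹ • x → ac A⁻¹ x = l • x := by
    intro x hx
    have h1 := ac_inv_ac A x
    rw [hx, ac_smul] at h1
    rw [← h1, smul_smul, mul_inv_cancel₀ hl0.ne', one_smul]
    rw [h1]
  exact dt_eig hl (e1 q hq) (e1 v hv)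

theorem ac_conj_eig {A B : SL2} {l : ℝ} {v : Fin 2 → ℝ} (h : ac A v = l • v) :
    ac (B * A * B⁻¹) (ac B v) = l • ac B v := by
  rw [ac_mul, ac_mul, ac_inv_ac, h, ac_smul]

theorem inv_eig {A : SL2} {l : ℝ} (hl : l ≠ 0) {v : Fin 2 → ℝ} (h : ac A v = l • v) :
    ac A⁻¹ v = l⁻¹ • v := by
  have h1 := ac_inv_ac A v
  rw [h, ac_smul] at h1
  rw [← h1, smul_smul, inv_mul_cancel₀ hl, one_smul, h1]

/-- changing the gluing parameters -/
noncomputable def setR {S : Subsemiring ℝ} {g : ℕ} (D : Dat S g) (r : ℤ → ℝ) (hr : ∀ j, r j ∈ S)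
    (hri : ∀ j, (r j)⁻¹ ∈ S) (h0 : ∀ j, r j ≠ 0) : Dat S g :=
  { D with
    r := r
    ri := fun j => (r j)⁻¹
    r_mem := hr
    ri_mem := hri
    r_mul := fun j => mul_inv_cancel₀ (h0 j) }

/-- **A maximal representation (with hyperbolic `a_i`) comes from a chart datum, up to signs.** -/
theorem max_chart {S : Subsemiring ℝ} (hS : ∀ x, x ∈ S ↔ 0 ≤ x) {g : ℕ} (hg : 2 ≤ g)
    (ρ : SurfaceGroup g →* SL2) (he : eu ρ = 2 * g - 2)
    (htr : ∀ i, 4 < (ρ (sa g i)).1.trace ^ 2) :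
    ∃ (D : Dat S g) (χ : SurfaceGroup g →* ℤˣ), ρ = tw χ D.rho := by
  have hg0 : 0 < g := by omega
  -- make the traces of the `a_i` positive
  have hsg : ∀ i, ∃ u : ℤˣ, 2 < (sgn2 u * ρ (sa g i)).1.trace := by
    intro i
    rcases lt_or_ge 2 (ρ (sa g i)).1.trace with h | h
    · exact ⟨1, by rwa [sgn2_one, one_mul]⟩
    · refine ⟨-1, ?_⟩
      rw [sgn2_neg_one]
      simp only [neg_mul, one_mul, Matrix.SpecialLinearGroup.coe_neg, Matrix.trace_neg]
      nlinarith [htr i]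
  choose ua hua using hsg
  obtain ⟨χ₁, hχ₁a, hχ₁b⟩ := exists_char ua (fun _ => 1)
  set σ := tw χ₁ ρ with hσ
  have hσe : eu σ = 2 * g - 2 := by rw [hσ, eu_tw, he]
  set A : Fin g → SL2 := fun i => σ (sa g i) with hA
  set B : Fin g → SL2 := fun i => σ (sb g i) with hB
  have hAt : ∀ i, 2 < (A i).1.trace := by
    intro i
    simp only [hA, hσ, tw_apply, hχ₁a]
    exact hua i
  -- eigenvectors
  set m : Fin g → ℝ := fun i => big (A i).1.trace with hm
  have hm1 : ∀ i, 1 < m i := fun i => (big_spec (hAt i)).1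
  have hm0 : ∀ i, 0 < m i := fun i => by linarith [hm1 i]
  have hme : ∀ i, (m i) ^ 2 - (A i).1.trace * m i + 1 = 0 := fun i => (big_spec (hAt i)).2
  have hx : ∀ i, ∃ x : ℝ, ac (A i) (ev x) = m i • ev x := fun i => exists_eig (hme i)
  have hy : ∀ i, ∃ y : ℝ, ac (A i) (ev y) = (m i)⁻¹ • ev y := fun i => exists_eig (by
    have h1 := hme i
    have h2 := (hm0 i).ne'
    field_simp
    linarith)
  choose x hx using hx
  choose y hy using hy
  have hf0 : ∀ i, ∃ f : CircleDeg1Liftˣ, (A i, f) ∈ Tld ∧ (f : CircleDeg1Lift) (x i) = x i :=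
    fun i => exists_lift_fix (hm0 i) (hx i)
  choose f0 hf0 hf0x using hf0
  have hf0y : ∀ i, (f0 i : CircleDeg1Lift) (y i) = y i := fun i =>
    lift_fix (hf0 i) (inv_pos.2 (hm0 i)) (hf0x i) (hy i)
  choose bl hbl using fun i => exists_lift (B i)
  -- the periodic sequences
  set C : ℤ → SL2 := fun j => if j % 2 = 0 then A (idx g hg0 j) else
    B (idx g hg0 j) * (A (idx g hg0 j))⁻¹ * (B (idx g hg0 j))⁻¹ with hCdef
  set f : ℤ → CircleDeg1Liftˣ := fun j => if j % 2 = 0 then f0 (idx g hg0 j) else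
    bl (idx g hg0 j) * (f0 (idx g hg0 j))⁻¹ * (bl (idx g hg0 j))⁻¹ with hfdef
  set v : ℤ → ℝ := fun j => if j % 2 = 0 then x (idx g hg0 j) else
    (bl (idx g hg0 j) : CircleDeg1Lift) (y (idx g hg0 j)) with hvdef
  set μ : ℤ → ℝ := fun j => m (idx g hg0 j) with hμdef
  have hC : ∀ j, (C j, f j) ∈ Tld := by
    intro j
    simp only [hCdef, hfdef]
    split_ifs with h
    · exact hf0 _
    · exact Tld.mul_mem (Tld.mul_mem (hbl _) (Tld.inv_mem (hf0 _))) (Tld.inv_mem (hbl _))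
  have hv : ∀ j, ac (C j) (ev (v j)) = μ j • ev (v j) := by
    intro j
    simp only [hCdef, hvdef, hμdef]
    split_ifs with h
    · exact hx _
    · set i := idx g hg0 j
      obtain ⟨c, hc, h1⟩ := ac_ev (hbl i) (y i)
      have h2 : ac (A i)⁻¹ (ev (y i)) = m i • ev (y i) := by
        have := inv_eig (inv_ne_zero (hm0 i).ne') (hy i)
        rwa [inv_inv] at this
      have h3 := ac_conj_eig (B := B i) h2
      rw [h1, ac_smul, smul_comm] at h3
      exact smul_right_injective _ hc.ne' h3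
  have hfv : ∀ j, (f j : CircleDeg1Lift) (v j) = v j := by
    intro j
    simp only [hfdef, hvdef]
    split_ifs with h
    · exact hf0x _
    · set i := idx g hg0 j
      rw [u_mul_apply, u_mul_apply, CircleDeg1Lift.units_inv_apply_apply]
      congr 1
      conv_lhs => rw [← hf0y i]
      rw [CircleDeg1Lift.units_inv_apply_apply]
  have hprodC : (List.ofFn fun i : Fin (2 * g) => C (i : ℕ)).prod = 1 := by
    rw [prod_pair]
    have h1 : (fun i : Fin g => C (2 * (i : ℕ)) * C (2 * (i : ℕ) + 1)) =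
        fun i => A i * B i * (A i)⁻¹ * (B i)⁻¹ := by
      funext i
      simp only [hCdef]
      rw [if_pos (by omega), if_neg (by omega), idx_odd, idx_even]
      simp only [mul_assoc]
    rw [h1]
    have h2 := map_cw σ (sa g) (sb g)
    rw [surf_cw, map_one] at h2
    exact h2.symm
  have hprodf : (List.ofFn fun i : Fin (2 * g) => f (i : ℕ)).prod = zt (2 * g - 2) := by
    rw [prod_pair]
    have h1 : (fun i : Fin g => f (2 * (i : ℕ)) * f (2 * (i : ℕ) + 1)) =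
        fun i => f0 i * bl i * (f0 i)⁻¹ * (bl i)⁻¹ := by
      funext i
      simp only [hfdef]
      rw [if_pos (by omega), if_neg (by omega), idx_odd, idx_even]
      simp only [mul_assoc]
    rw [h1, ← hσe]
    exact eu_spec σ hf0 hbl
  obtain ⟨D₁, hD₁⟩ := exists_dat hS hg (C := C) (f := f) (v := v) (μ := μ) hC
    (fun j => by simp only [hCdef, idx_per, par_per])
    (fun j => by simp only [hfdef, idx_per, par_per])
    (fun j => by simp only [hvdef, idx_per, par_per])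
    (fun j => by simp only [hμdef, idx_per])
    (fun j => hm1 _) hv hfv (fun i => by simp only [hμdef, idx_odd]) hprodC hprodf
  -- the gluing parameters
  have hDc : ∀ j, D₁.c j = C j := fun j => (hD₁ j).1
  have hDmu : ∀ j, D₁.mu j = μ j := fun j => (hD₁ j).2
  have hDmui : ∀ j, D₁.mui j = (μ j)⁻¹ := by
    intro j
    have h1 := D₁.mu_mul j
    rw [hDmu] at h1
    exact eq_inv_of_mul_eq_one_right h1
  have hCe : ∀ i : Fin g, C (2 * ((i : ℕ) : ℤ)) = A i := fun i => by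
    simp only [hCdef]
    rw [if_pos (by omega), idx_even]
  have hCo : ∀ i : Fin g, C (2 * ((i : ℕ) : ℤ) + 1) = B i * (A i)⁻¹ * (B i)⁻¹ := fun i => by
    simp only [hCdef]
    rw [if_neg (by omega), idx_odd, idx_even]
  have hμe : ∀ i : Fin g, μ (2 * ((i : ℕ) : ℤ)) = m i := fun i => by
    simp only [hμdef]
    rw [idx_even]
  have hμo : ∀ i : Fin g, μ (2 * ((i : ℕ) : ℤ) + 1) = m i := fun i => by
    simp only [hμdef]
    rw [idx_odd, idx_even]
  have hBn : ∀ i : Fin g, ∃ t : ℝ,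
      ac (B i) (D₁.n (2 * ((i : ℕ) : ℤ))) = t • D₁.nu (2 * ((i : ℕ) : ℤ) + 1) := by
    intro i
    refine ⟨_, eq_smul_of_dt (D₁.dt_nu_n (2 * ((i : ℕ) : ℤ) + 1)) ?_⟩
    refine dt_eig (A := C (2 * ((i : ℕ) : ℤ) + 1)) (hm1 i) ?_ ?_
    · rw [← hDc, D₁.c_nu, hDmu, hμo]
    · rw [hCo]
      refine ac_conj_eig ?_
      have h1 := D₁.inv_c_n (2 * ((i : ℕ) : ℤ))
      rwa [hDc, hCe, hDmu, hμe] at h1
  have hBnu : ∀ i : Fin g, ∃ s : ℝ,
      ac (B i) (D₁.nu (2 * ((i : ℕ) : ℤ))) = s • D₁.n (2 * ((i : ℕ) : ℤ) + 1) := by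
    intro i
    have h0 : dt (D₁.n (2 * ((i : ℕ) : ℤ) + 1)) (-D₁.nu (2 * ((i : ℕ) : ℤ) + 1)) = 1 := by
      rw [dt_neg_right, D₁.dt_n_nu, neg_neg]
    refine ⟨_, eq_smul_of_dt h0 ?_⟩
    refine dt_eig' (A := C (2 * ((i : ℕ) : ℤ) + 1)) (hm1 i) ?_ ?_
    · rw [← hDc, D₁.c_n, hDmui, hμo]
    · rw [hCo]
      refine ac_conj_eig ?_
      have h1 := D₁.inv_c_nu (2 * ((i : ℕ) : ℤ))
      rwa [hDc, hCe, hDmui, hμe] at h1
  choose t ht using hBn
  choose s hs using hBnu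
  have hst : ∀ i, s i * t i = -1 := by
    intro i
    have h1 := dt_ac (B i) (D₁.nu (2 * ((i : ℕ) : ℤ))) (D₁.n (2 * ((i : ℕ) : ℤ)))
    rw [hs, ht, D₁.dt_nu_n, dt_smul_left, dt_smul_right, D₁.dt_n_nu] at h1
    linarith
  have ht0 : ∀ i, t i ≠ 0 := fun i h => by
    have := hst i
    rw [h, mul_zero] at this
    norm_num at this
  set r : ℤ → ℝ := fun j => |t (idx g hg0 (2 * j))| with hr
  have hr0 : ∀ j, 0 < r j := fun j => abs_pos.2 (ht0 _)
  have hri : ∀ i : Fin g, r ((i : ℕ) : ℤ) = |t i| := fun i => by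
    simp only [hr]
    rw [idx_even]
  set D : Dat S g := setR D₁ r (fun j => (hS _).2 (hr0 j).le)
    (fun j => (hS _).2 (inv_pos.2 (hr0 j)).le) (fun j => (hr0 j).ne') with hD
  have hDr : ∀ j, D.r j = r j := fun j => rfl
  have hDri : ∀ j, D.ri j = (r j)⁻¹ := fun j => rfl
  have hDn : ∀ j, D.n j = D₁.n j := fun j => rfl
  have hDnu : ∀ j, D.nu j = D₁.nu j := fun j => rfl
  have hDc' : ∀ j, D.c j = D₁.c j := fun j => rfl
  have hud : ∀ i, ∃ u : ℤˣ, ((u : ℤ) : ℝ) * t i = |t i| := by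
    intro i
    rcases le_total 0 (t i) with h | h
    · exact ⟨1, by simp [abs_of_nonneg h]⟩
    · exact ⟨-1, by simp [abs_of_nonpos h]⟩
  choose ub hub using hud
  have hsgn_ac : ∀ (u : ℤˣ) (M : SL2) (w : Fin 2 → ℝ), ac (sgn2 u * M) w = ((u : ℤ) : ℝ) • ac M w := by
    intro u M w
    rcases Int.units_eq_one_or u with rfl | rfl
    · rw [sgn2_one, one_mul]; simp
    · rw [sgn2_neg_one, neg_one_mul, neg_ac]; simp
  have hDB : ∀ i : Fin g, D.B ((i : ℕ) : ℤ) = sgn2 (ub i) * B i := by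
    intro i
    refine sl_ext (D.B_aux1 ((i : ℕ) : ℤ)) ?_ ?_
    · rw [D.B_n, hDr, hri, hDnu, hsgn_ac, hDn, ht, smul_smul, hub]
    · rw [D.B_nu, hDri, hri, hDnu, hsgn_ac, hDn, hs, smul_smul, ← neg_smul]
      congr 1
      have h1 : |t i| ≠ 0 := abs_ne_zero.2 (ht0 i)
      have h2 : ((ub i : ℤ) : ℝ) * ((ub i : ℤ) : ℝ) = 1 := by
        rcases Int.units_eq_one_or (ub i) with h | h <;> rw [h] <;> simp
      rw [← hub i] at h1 ⊢
      have h3 : ((ub i : ℤ) : ℝ) ≠ 0 := left_ne_zero_of_mul h1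
      have h4 := hst i
      have h5 := ht0 i
      field_simp
      linear_combination (-1 : ℝ) * h4 * ((ub i : ℤ) : ℝ) ^ 2 + h2
  obtain ⟨χ₂, hχ₂a, hχ₂b⟩ := exists_char (g := g) (fun _ => 1) ub
  have hρ₂ : D.rho = tw χ₂ σ := by
    refine surf_ext (fun i => ?_) (fun i => ?_)
    · rw [D.rho_a, hDc', hDc, hCe, tw_apply, hχ₂a, sgn2_one, one_mul]
    · rw [D.rho_b, hDB, tw_apply, hχ₂b]
  refine ⟨D, χ₁ * χ₂, ?_⟩
  rw [hρ₂]
  ext1 z
  rw [tw_apply, tw_apply, hσ, tw_apply, MonoidHom.mul_apply, map_mul, mul_assoc]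
  rw [sgn2_mul_self, sgn2_mul_self]

end Pool.Agent.ToMx
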