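import Mathlib

/-! # MP_305fdd_al : torsion room, maximal representations and charts: the order lemma -/

namespace Pool.Agent.ToMx

theorem shift_nat {F : ℝ → ℝ} (h1 : ∀ x, F (x + 1) = F x + 1) (x : ℝ) (n : ℕ) :
    F (x + n) = F x + n := by
  induction n with
  | zero => simp
  | succ n ih =>
    have : x + ((n + 1 : ℕ) : ℝ) = (x + n) + 1 := by push_cast; ring
    rw [this, h1, ih]
    push_cast; ring

theorem shift_int {F : ℝ → ℝ} (h1 : ∀ x, F (x + 1) = F x + 1) (x : ℝ) (n : ℤ) :
    F (x + n) = F x + n := by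
  obtain ⟨m, rfl | rfl⟩ := n.eq_nat_or_neg
  · exact_mod_cast shift_nat h1 x m
  · have := shift_nat h1 (x + ((-(m : ℤ) : ℤ) : ℝ)) m
    push_cast at this ⊢
    rw [show x + -(m : ℝ) + m = x by ring] at this
    linarith

/-- a lift with a fixed point moves everything by less than `1` -/
theorem step_lt {F : ℝ → ℝ} (hF : StrictMono F) (h1 : ∀ x, F (x + 1) = F x + 1) {w : ℝ}
    (hw : F w = w) (x : ℝ) : F x < x + 1 := by
  have h2 : x < w + ((⌊x - w⌋ + 1 : ℤ) : ℝ) := by
    have := Int.lt_floor_add_one (x - w)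
    push_cast
    linarith
  have h3 : w + ((⌊x - w⌋ + 1 : ℤ) : ℝ) ≤ x + 1 := by
    have := Int.floor_le (x - w)
    push_cast
    linarith
  have h4 := hF h2
  rw [shift_int h1, hw] at h4
  linarith

/-- if a lift `F` with a fixed point `w` moves `x` up, then a translate of `w` lies in
`(F x, x + 1)` -/
theorem exists_between {F : ℝ → ℝ} (hF : StrictMono F) (h1 : ∀ x, F (x + 1) = F x + 1) {w : ℝ}
    (hw : F w = w) {x : ℝ} (hx : x < F x) : ∃ n : ℤ, F x < w + n ∧ w + n < x + 1 := by
  have h2 : x < w + ((⌊x - w⌋ + 1 : ℤ) : ℝ) := by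
    have := Int.lt_floor_add_one (x - w)
    push_cast
    linarith
  have h3 : w + ((⌊x - w⌋ + 1 : ℤ) : ℝ) ≤ x + 1 := by
    have := Int.floor_le (x - w)
    push_cast
    linarith
  refine ⟨⌊x - w⌋ + 1, ?_, ?_⟩
  · have h4 := hF h2
    rw [shift_int h1, hw] at h4
    exact h4
  · refine lt_of_le_of_ne h3 fun h5 => ?_
    have h6 : x = w + ((⌊x - w⌋ : ℤ) : ℝ) := by
      push_cast at h5
      linarith
    have h7 : F x = x := by
      conv_lhs => rw [h6]
      rw [shift_int h1, hw]
      exact h6.symm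
    exact absurd hx (by rw [h7]; exact lt_irrefl _)

/-- **Order lemma.**  `F 1, ..., F K` lifts with fixed points `w i`, `P (i+1) = F (i+1) (P i)`, total
displacement `K - 1`: the fixed points interlace. -/
theorem interlace {K : ℕ} (hK : 2 ≤ K) {F : ℕ → ℝ → ℝ} (hF : ∀ i, StrictMono (F i))
    (h1 : ∀ i x, F i (x + 1) = F i x + 1) {w : ℕ → ℝ} (hw : ∀ i, F i (w i) = w i) {P : ℕ → ℝ}
    (hP : ∀ i, i < K → P (i + 1) = F (i + 1) (P i)) (hPK : P K = P 0 + (K - 1)) :
    ∃ n : ℕ → ℤ, ∀ i, i < K → P (i + 1) - (i + 1 : ℕ) < w (i + 1) + n (i + 1) ∧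
      w (i + 1) + n (i + 1) < P i - i := by
  have hd : ∀ i, i < K → P (i + 1) < P i + 1 := fun i hi => by
    rw [hP i hi]
    exact step_lt (hF _) (h1 _) (hw _) _
  have hle : ∀ j i, i ≤ j → j ≤ K → P j - P i ≤ (j : ℝ) - i := by
    intro j
    induction j with
    | zero =>
      intro i hi _
      have : i = 0 := by omega
      subst this
      simp
    | succ j ih =>
      intro i hi hj
      rcases Nat.lt_or_ge j i with h | h
      · have : i = j + 1 := by omega
        subst this
        simp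
      · have h2 := ih i h (by omega)
        have h3 := hd j (by omega)
        push_cast
        linarith
  have hlt : ∀ j i, i < j → j ≤ K → P j - P i < (j : ℝ) - i := by
    intro j i hi hj
    have h2 := hle (j - 1) i (by omega) (by omega)
    have h3 := hd (j - 1) (by omega)
    have h4 : j - 1 + 1 = j := by omega
    rw [h4] at h3
    have h5 : ((j - 1 : ℕ) : ℝ) = (j : ℝ) - 1 := by
      rw [Nat.cast_sub (by omega)]
      simp
    rw [h5] at h2
    linarith
  have hpos : ∀ i, i < K → P i < P (i + 1) := by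
    intro i hi
    rcases Nat.eq_zero_or_pos i with h | h
    · subst h
      have h2 := hlt K 1 (by omega) le_rfl
      push_cast at h2
      simp only [zero_add]
      linarith
    · have h2 := hle K (i + 1) (by omega) le_rfl
      have h3 := hlt i 0 h (by omega)
      push_cast at h2 h3
      linarith
  have hex : ∀ i, i < K → ∃ n : ℤ, P (i + 1) < w (i + 1) + n ∧ w (i + 1) + n < P i + 1 := by
    intro i hi
    have := exists_between (hF (i + 1)) (h1 (i + 1)) (hw (i + 1)) (x := P i)
      (by rw [← hP i hi]; exact hpos i hi)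
    rwa [← hP i hi] at this
  choose! n hn using hex
  refine ⟨fun i => n (i - 1) - i, fun i hi => ?_⟩
  have h2 := hn i hi
  simp only [Nat.add_sub_cancel]
  push_cast
  constructor
  · linarith [h2.1]
  · linarith [h2.2]

/-- the partial products `f 1 ∘ f 2 ∘ ⋯ ∘ f m` -/
def parts (f : ℤ → ℝ → ℝ) : ℕ → ℝ → ℝ
  | 0 => id
  | m + 1 => parts f m ∘ f (m + 1)

@[simp] theorem parts_zero (f : ℤ → ℝ → ℝ) (x : ℝ) : parts f 0 x = x := rfl

theorem parts_succ (f : ℤ → ℝ → ℝ) (m : ℕ) (x : ℝ) :
    parts f (m + 1) x = parts f m (f (m + 1) x) := rfl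

/-- **Order lemma, periodic form.** -/
theorem interlaceZ {k : ℕ} (hk : 3 ≤ k) {f : ℤ → ℝ → ℝ} (hf : ∀ i, StrictMono (f i))
    (h1 : ∀ i x, f i (x + 1) = f i x + 1) {v : ℤ → ℝ} (hv : ∀ i, f i (v i) = v i)
    (vper : ∀ i, v (i + k) = v i) (hprod : ∀ x, parts f k x = x + (k - 2)) :
    ∃ n : ℤ → ℤ, StrictMono (fun j => v j + n j) ∧ ∀ j, n (j + k) = n j + 1 := by
  -- the points
  obtain ⟨P, hP0, hPs⟩ : ∃ P : ℕ → ℝ, P 0 = v k ∧
      ∀ i : ℕ, P (i + 1) = f ((k : ℤ) - (i + 1 : ℕ)) (P i) :=
    ⟨fun i => Nat.rec (v k) (fun i x => f ((k : ℤ) - (i + 1 : ℕ)) x) i, rfl, fun i => rfl⟩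
  have hG : ∀ i : ℕ, i ≤ k - 1 → parts f (k - 1 - i) (P i) = v k + (k - 2) := by
    intro i
    induction i with
    | zero =>
      intro _
      have h2 := hprod (v k)
      have h3 : k = (k - 1) + 1 := by omega
      rw [h3, parts_succ] at h2
      have h4 : ((k - 1 : ℕ) : ℤ) + 1 = k := by omega
      rw [h4] at h2
      have h5 : ((k - 1 + 1 : ℕ) : ℤ) = k := by omega
      rw [h5, hv] at h2
      rw [Nat.sub_zero, hP0, h2]
      have h6 : ((k - 1 + 1 : ℕ) : ℝ) = k := by
        rw [← h3]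
      rw [h6]
    | succ i ih =>
      intro hi
      have h2 := ih (by omega)
      have h3 : k - 1 - i = (k - 1 - (i + 1)) + 1 := by omega
      rw [h3, parts_succ] at h2
      have h4 : ((k - 1 - (i + 1) : ℕ) : ℤ) + 1 = (k : ℤ) - (i + 1 : ℕ) := by omega
      rw [h4] at h2
      rw [hPs]
      exact h2
  have hPK : P (k - 1) = P 0 + (((k - 1 : ℕ) : ℝ) - 1) := by
    have h2 := hG (k - 1) le_rfl
    rw [Nat.sub_self, parts_zero] at h2
    rw [h2, hP0, Nat.cast_sub (by omega)]
    push_cast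
    ring
  obtain ⟨n, hn⟩ := interlace (K := k - 1) (by omega) (F := fun i => f ((k : ℤ) - i))
    (fun i => hf _) (fun i x => h1 _ x) (w := fun i => v ((k : ℤ) - i)) (fun i => hv _)
    (P := P) (fun i _ => hPs i) hPK
  -- the shifts on `1..k`
  set N : ℕ → ℤ := fun j => if j = k then 0 else n (k - j) with hN
  have hlo : ∀ j : ℕ, 1 ≤ j → j < k →
      P (k - j) - ((k - j : ℕ) : ℝ) < v j + N j ∧
        v j + N j < P (k - (j + 1)) - ((k - (j + 1) : ℕ) : ℝ) := by
    intro j hj hjk
    have h2 := hn (k - (j + 1)) (by omega)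
    have h3 : k - (j + 1) + 1 = k - j := by omega
    rw [h3] at h2
    have h4 : (k : ℤ) - ((k - j : ℕ) : ℤ) = j := by omega
    rw [h4] at h2
    have h5 : N j = n (k - j) := by
      simp only [hN]
      rw [if_neg (by omega)]
    rw [h5]
    exact h2
  have hNk : N k = 0 := by simp [hN]
  have hlt : ∀ j : ℕ, 1 ≤ j → j < k → v j + N j < v ((j + 1 : ℕ) : ℤ) + N (j + 1) := by
    intro j hj hjk
    have h2 := (hlo j hj hjk).2
    rcases Nat.lt_or_ge (j + 1) k with h | h
    · exact h2.trans (hlo (j + 1) (by omega) h).1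
    · have h3 : j + 1 = k := by omega
      rw [h3] at h2 ⊢
      rw [hNk]
      simp only [Nat.sub_self, CharP.cast_eq_zero, sub_zero, hP0] at h2
      simpa using h2
  have hlt1 : v k < v 1 + N 1 + 1 := by
    have h2 := (hlo 1 le_rfl (by omega)).1
    rw [hPK, hP0] at h2
    have h3 : ((k - 1 : ℕ) : ℝ) = (k : ℝ) - 1 := by
      rw [Nat.cast_sub (by omega)]
      simp
    rw [h3] at h2
    push_cast at h2
    linarith
  -- extension by periodicity
  have hkz : (0 : ℤ) < k := by omega
  have hvq : ∀ (q : ℤ) (i : ℤ), v (i + k * q) = v i := by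
    have hvn : ∀ (q : ℕ) (i : ℤ), v (i + k * q) = v i := by
      intro q
      induction q with
      | zero => intro i; simp
      | succ q ih =>
        intro i
        have : i + (k : ℤ) * ((q + 1 : ℕ) : ℤ) = (i + k * q) + k := by push_cast; ring
        rw [this, vper, ih]
    intro q i
    obtain ⟨m, rfl | rfl⟩ := q.eq_nat_or_neg
    · exact hvn m i
    · rw [← hvn m (i + k * (-(m : ℤ)))]
      congr 1
      ring
  set N' : ℤ → ℤ := fun j => N (((j - 1) % k).toNat + 1) + (j - 1) / k with hN'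
  have hres : ∀ j : ℤ, v j = v ((((j - 1) % k).toNat + 1 : ℕ) : ℤ) := by
    intro j
    have h2 : ((((j - 1) % k).toNat + 1 : ℕ) : ℤ) = (j - 1) % k + 1 := by
      have := Int.emod_nonneg (j - 1) hkz.ne'
      omega
    rw [h2, ← hvq ((j - 1) / k) ((j - 1) % k + 1)]
    congr 1
    have := Int.emod_add_mul_ediv (j - 1) k
    linarith
  refine ⟨N', strictMono_int_of_lt_succ fun j => ?_, fun j => ?_⟩
  · -- j < j + 1
    show v j + N' j < v (j + 1) + N' (j + 1)
    rw [hres j, hres (j + 1)]
    simp only [hN']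
    have hm0 := Int.emod_nonneg (j - 1) hkz.ne'
    have hm1 := Int.emod_lt_of_pos (j - 1) hkz
    have hdm := Int.emod_add_mul_ediv (j - 1) k
    rcases lt_or_ge ((j - 1) % k + 1) (k : ℤ) with h | h
    · have h2 : (j + 1 - 1) % (k : ℤ) = (j - 1) % k + 1 := by
        have : j + 1 - 1 = ((j - 1) % k + 1) + k * ((j - 1) / k) := by linarith
        rw [this, Int.add_mul_emod_self_left, Int.emod_eq_of_lt (by omega) h]
      have h3 : (j + 1 - 1) / (k : ℤ) = (j - 1) / k := by
        have : j + 1 - 1 = ((j - 1) % k + 1) + k * ((j - 1) / k) := by linarith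
        rw [this, Int.add_mul_ediv_left _ _ hkz.ne', Int.ediv_eq_zero_of_lt (by omega) h]
        simp
      rw [h2, h3]
      have h4 : ((j - 1) % (k : ℤ) + 1).toNat = ((j - 1) % (k : ℤ)).toNat + 1 := by
        omega
      rw [h4]
      have h5 := hlt (((j - 1) % (k : ℤ)).toNat + 1) (by omega) (by omega)
      push_cast at h5 ⊢
      linarith
    · have h2 : (j + 1 - 1) % (k : ℤ) = 0 := by
        have : j + 1 - 1 = 0 + k * ((j - 1) / k + 1) := by
          have : (j - 1) % (k : ℤ) + 1 = k := by omega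
          rw [mul_add]
          linarith
        rw [this, Int.add_mul_emod_self_left]
        simp
      have h3 : (j + 1 - 1) / (k : ℤ) = (j - 1) / k + 1 := by
        have : j + 1 - 1 = 0 + k * ((j - 1) / k + 1) := by
          have : (j - 1) % (k : ℤ) + 1 = k := by omega
          rw [mul_add]
          linarith
        conv_lhs => rw [this]
        rw [Int.add_mul_ediv_left _ _ hkz.ne']
        simp
      rw [h2, h3]
      have h4 : ((j - 1) % (k : ℤ)).toNat + 1 = k := by omega
      rw [h4, hNk]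
      simp only [Int.toNat_zero, zero_add, Nat.cast_one]
      push_cast
      linarith
  · simp only [hN']
    have h2 : (j + k - 1) % (k : ℤ) = (j - 1) % k := by
      rw [show j + (k : ℤ) - 1 = (j - 1) + k * 1 by ring, Int.add_mul_emod_self_left]
    have h3 : (j + k - 1) / (k : ℤ) = (j - 1) / k + 1 := by
      rw [show j + (k : ℤ) - 1 = (j - 1) + k * 1 by ring, Int.add_mul_ediv_left _ _ hkz.ne']
    rw [h2, h3]
    ring

end Pool.Agent.ToMx
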