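import Pool.Agent.Lib.MP_305fdd_al.To.Mx.Grp

/-! # MP_305fdd_al : torsion room, maximal representations and charts: the polygons -/

set_option autoImplicit false

namespace Pool.Agent.ToMx

open Real Pool.Agent.ToC Pool.Agent.ToEu

theorem parts_eq (f : ℤ → CircleDeg1Liftˣ) (m : ℕ) (x : ℝ) :
    parts (fun i y => (f (i - 1) : CircleDeg1Lift) y) m x =
      (((List.ofFn fun i : Fin m => f (i : ℕ)).prod : CircleDeg1Liftˣ) : CircleDeg1Lift) x := by
  induction m generalizing x with
  | zero => simp [parts_zero]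
  | succ m ih =>
    rw [parts_succ, ih, List.ofFn_succ', List.concat_eq_append, List.prod_append,
      List.prod_singleton, u_mul_apply]
    simp only [Fin.val_castSucc, Fin.val_last, add_sub_cancel_right]

theorem prod_neg {m : ℕ} (C : ℤ → SL2) (f : ℤ → CircleDeg1Liftˣ) :
    (List.ofFn fun i : Fin (2 * m) => ((-C (i : ℕ), zt (-1) * f (i : ℕ)) : SL2 × CircleDeg1Liftˣ)).prod
      = ((List.ofFn fun i : Fin (2 * m) => C (i : ℕ)).prod,
          zt (-(2 * m : ℕ)) * (List.ofFn fun i : Fin (2 * m) => f (i : ℕ)).prod) := by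
  have key : ∀ n : ℕ, (List.ofFn fun i : Fin n =>
      ((-C (i : ℕ), zt (-1) * f (i : ℕ)) : SL2 × CircleDeg1Liftˣ)).prod
      = ((-1) ^ n * (List.ofFn fun i : Fin n => C (i : ℕ)).prod,
          zt (-(n : ℤ)) * (List.ofFn fun i : Fin n => f (i : ℕ)).prod) := by
    intro n
    induction n with
    | zero =>
      simp [zt_zero]
      rfl
    | succ n ih =>
      simp only [List.ofFn_succ', List.concat_eq_append, List.prod_append,
        List.prod_singleton, Fin.val_castSucc, Fin.val_last]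
      rw [ih, Prod.mk_mul_mk]
      congr 1
      · rw [pow_succ, mul_neg, mul_assoc]
        simp [neg_mul]
      · have h1 : zt (-((n + 1 : ℕ) : ℤ)) = zt (-(n : ℤ)) * zt (-1) := by
          rw [← zt_add]
          congr 1
          push_cast
          ring
        rw [h1, mul_assoc, mul_assoc]
        congr 1
        rw [← mul_assoc, ← mul_assoc, (zt_comm (-1) _).eq]
  rw [key, pow_mul]
  simp

/-- **The polygons of a maximal product.** -/
theorem exists_dat {S : Subsemiring ℝ} (hS : ∀ x, x ∈ S ↔ 0 ≤ x) {g : ℕ} (hg : 2 ≤ g)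
    {C : ℤ → SL2} {f : ℤ → CircleDeg1Liftˣ} {v μ : ℤ → ℝ} (hC : ∀ j, (C j, f j) ∈ Tld)
    (Cper : ∀ j, C (j + 2 * g) = C j) (fper : ∀ j, f (j + 2 * g) = f j)
    (vper : ∀ j, v (j + 2 * g) = v j) (μper : ∀ j, μ (j + 2 * g) = μ j) (hμ : ∀ j, 1 < μ j)
    (hv : ∀ j, ac (C j) (ev (v j)) = μ j • ev (v j)) (hfv : ∀ j, (f j : CircleDeg1Lift) (v j) = v j)
    (μpair : ∀ i, μ (2 * i + 1) = μ (2 * i))
    (hprodC : (List.ofFn fun i : Fin (2 * g) => C (i : ℕ)).prod = 1)
    (hprodf : (List.ofFn fun i : Fin (2 * g) => f (i : ℕ)).prod = zt (2 * g - 2)) :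
    ∃ D : Dat S g, ∀ j, D.c j = C j ∧ D.mu j = μ j := by
  -- the fixed points
  have hint := interlaceZ (k := 2 * g) (by omega)
    (f := fun i y => (f (i - 1) : CircleDeg1Lift) y) (fun i => u_strictMono _)
    (fun i x => CircleDeg1Lift.map_add_one _ x) (v := fun i => v (i - 1)) (fun i => hfv _)
    (fun i => by
      have := vper (i - 1)
      rw [← this]
      congr 1
      push_cast
      ring)
    (fun x => by
      rw [parts_eq, hprodf, zt_apply]
      push_cast
      ring)
  obtain ⟨n, hn1, hn2⟩ := hint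
  obtain ⟨V, hVm, hVp, hVv⟩ : ∃ V : ℤ → ℝ, StrictMono V ∧ (∀ j, V (j + 2 * g) = V j + 1) ∧
      ∀ j, ∃ m : ℤ, V j = v j + m := by
    refine ⟨fun j => v j + n (j + 1), fun i j hij => ?_, fun j => ?_, fun j => ⟨n (j + 1), rfl⟩⟩
    · have := hn1 (show i + 1 < j + 1 by omega)
      simpa using this
    · beta_reduce
      rw [vper]
      have := hn2 (j + 1)
      rw [show j + 2 * (g : ℤ) + 1 = (j + 1) + ((2 * g : ℕ) : ℤ) by push_cast; ring, this]
      push_cast
      ring
  have hV1 : ∀ j, V (j + 1) < V j + 1 := by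
    intro j
    rw [← hVp]
    exact hVm (by omega)
  have hCV : ∀ j, ac (C j) (ev (V j)) = μ j • ev (V j) := by
    intro j
    obtain ⟨m, hm⟩ := hVv j
    rw [hm]
    rcases ev_add_int_cases (v j) m with h | h
    · rw [h, hv]
    · rw [h, ac_neg, hv, smul_neg]
  have hfV : ∀ j, (f j : CircleDeg1Lift) (V j) = V j := by
    intro j
    obtain ⟨m, hm⟩ := hVv j
    rw [hm, CircleDeg1Lift.map_add_int, hfv]
  -- the maps
  obtain ⟨G, hG0, hGs⟩ := exists_partial
    (fun j : ℤ => ((-C j, zt (-1) * f j) : SL2 × CircleDeg1Liftˣ))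
  have hzc : ∀ y : SL2 × CircleDeg1Liftˣ, Commute ((1, zt (-2)) : SL2 × CircleDeg1Liftˣ) y := by
    rintro ⟨A, h⟩
    exact Prod.ext (by simp) (zt_comm _ _).eq
  have hG2 : ∀ j, G (j + 2 * g) = G j * (1, zt (-2)) := by
    refine partial_per (x := fun j : ℤ => ((-C j, zt (-1) * f j) : SL2 × CircleDeg1Liftˣ))
      hG0 hGs (fun j => by simp only [Cper, fper]) hzc ?_
    have h1 := partial_nat hG0 hGs (2 * g)
    rw [show ((2 * g : ℕ) : ℤ) - 1 = 2 * (g : ℤ) - 1 by push_cast; ring] at h1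
    rw [h1, prod_neg, hprodC, hprodf, ← zt_add]
    congr 2
    push_cast
    ring
  have hGT : ∀ j, G j ∈ Tld := by
    have hx : ∀ j, ((-C j, zt (-1) * f j) : SL2 × CircleDeg1Liftˣ) ∈ Tld := by
      intro j
      have h1 := Tld.mul_mem (even_mem (-1)) (neg_mem (hC j))
      rw [Prod.mk_mul_mk, one_mul, ← mul_assoc, ← zt_add] at h1
      exact h1
    intro j
    induction j using Int.induction_on with
    | zero =>
      rw [hGs 0]
      simp only [zero_sub]
      rw [hG0, one_mul]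
      exact hx 0
    | succ i ih =>
      rw [hGs]
      refine Tld.mul_mem ?_ (hx _)
      rwa [add_sub_cancel_right]
    | pred i ih =>
      have h1 := hGs (-(i : ℤ))
      have h2 : G (-(i : ℤ) - 1) = G (-(i : ℤ)) * (-C (-(i : ℤ)), zt (-1) * f (-(i : ℤ)))⁻¹ := by
        rw [h1, mul_inv_cancel_right]
      rw [h2]
      exact Tld.mul_mem ih (Tld.inv_mem (hx _))
  -- the back polygon
  set w : ℤ → Fin 2 → ℝ := fun j => - ac (G (j - 1)).1 (ev (V j)) with hw
  set om : ℤ → ℝ := fun j => ((G (j - 1)).2 : CircleDeg1Lift) (V j) + 1 with hom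
  have hGs1 : ∀ j, (G j).1 = -((G (j - 1)).1 * C j) := by
    intro j
    rw [hGs j, Prod.fst_mul, mul_neg]
  have hGs2 : ∀ j x, ((G j).2 : CircleDeg1Lift) x =
      ((G (j - 1)).2 : CircleDeg1Lift) ((f j : CircleDeg1Lift) x) - 1 := by
    intro j x
    have h1 : (G j).2 = (G (j - 1)).2 * (zt (-1) * f j) := by rw [hGs j, Prod.snd_mul]
    rw [h1, u_mul_apply, u_mul_apply, zt_apply]
    push_cast
    have h2 := CircleDeg1Lift.map_int_add ((G (j - 1)).2 : CircleDeg1Lift) (-1)
      ((f j : CircleDeg1Lift) x)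
    push_cast at h2
    rw [h2]
    ring
  have hwom : ∀ j, ∃ c : ℝ, 0 < c ∧ w j = c • ev (om j) := by
    intro j
    obtain ⟨c, hc, h1⟩ := ac_ev (hGT (j - 1)) (V j)
    refine ⟨c, hc, ?_⟩
    simp only [hw, hom]
    rw [h1, ev_add_one, smul_neg]
  have hom1 : ∀ j, om (j + 1) < om j := by
    intro j
    simp only [hom]
    rw [add_sub_cancel_right, hGs2 j, sub_add_cancel, ← CircleDeg1Lift.map_add_one]
    apply u_strictMono
    have h1 := u_strictMono (f j) (hV1 j)
    rwa [CircleDeg1Lift.map_add_one, hfV] at h1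
  have hom2 : ∀ j, om (j + 2 * g) = om j - 1 := by
    intro j
    simp only [hom]
    rw [show j + 2 * (g : ℤ) - 1 = (j - 1) + 2 * g by ring, hG2, Prod.snd_mul, u_mul_apply,
      zt_apply, hVp]
    have h2 := CircleDeg1Lift.map_int_add ((G (j - 1)).2 : CircleDeg1Lift) (-1) (V j)
    push_cast at h2 ⊢
    rw [show -2 + (V j + 1) = -1 + V j by ring, h2]
    ring
  have homA : StrictAnti om := by
    have : StrictMono fun j => - om j := strictMono_int_of_lt_succ fun j => neg_lt_neg (hom1 j)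
    intro i j hij
    have := this hij
    simpa using this
  have hGw : ∀ j, ac (G j).1 (ev (V j)) = μ j • w j := by
    intro j
    rw [hGs1, neg_ac, ac_mul, hCV, ac_smul]
    simp only [hw]
    rw [smul_neg]
  have hGw' : ∀ j, ac (G j).1 (ev (V (j + 1))) = - w (j + 1) := by
    intro j
    simp only [hw]
    rw [add_sub_cancel_right, neg_neg]
  have hle : ∀ j, 0 < dt (ev (V j)) (ev (V (j + 1))) := fun j =>
    dt_ev_pos (hVm (by omega)) (hV1 j)
  have hμ0 : ∀ j, 0 < μ j := fun j => one_pos.trans (hμ j)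
  have hμi : ∀ j, 0 < μ j - (μ j)⁻¹ := fun j => by
    have := inv_lt_one_of_one_lt₀ (hμ j)
    linarith [hμ j]
  obtain ⟨D, hDnu, hDw, hDmu⟩ : ∃ D : Dat S g, (∀ j, D.nu j = ev (V j)) ∧ (∀ j, D.w j = w j) ∧
      ∀ j, D.mu j = μ j := ⟨{
    nu := fun j => ev (V j)
    w := w
    mu := μ
    mui := fun j => (μ j)⁻¹
    dl := fun j => (μ j - (μ j)⁻¹)⁻¹
    lei := fun j => (dt (ev (V j)) (ev (V (j + 1))))⁻¹
    r := fun _ => 1
    ri := fun _ => 1
    nu_per := fun j => by rw [hVp, ev_add_one]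
    w_per := fun j => by
      simp only [hw]
      rw [show j + 2 * (g : ℤ) - 1 = (j - 1) + 2 * g by ring, hG2, Prod.fst_mul, mul_one, hVp,
        ev_add_one, ac_neg]
    mu_per := μper
    mu_pair := μpair
    nu_pos := fun i j h1 h2 => by
      rw [hS]
      refine (dt_ev_pos (hVm h1) ?_).le
      rw [← hVp]
      exact hVm h2
    w_pos := fun i j h1 h2 => by
      rw [hS]
      obtain ⟨c, hc, h3⟩ := hwom i
      obtain ⟨d, hd, h4⟩ := hwom j
      rw [h3, h4, dt_smul_left, dt_smul_right]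
      have h5 : 0 < dt (ev (om j)) (ev (om i)) := by
        refine dt_ev_pos (homA h1) ?_
        have := homA h2
        rw [hom2] at this
        linarith
      positivity
    edge := fun j => by
      have h1 := dt_ac (G j).1 (ev (V (j + 1))) (ev (V j))
      rw [hGw, hGw', dt_neg_left, dt_smul_right] at h1
      rw [dt_swap (ev (V j)), ← h1, neg_neg]
    lei_mul := fun j => mul_inv_cancel₀ (hle j).ne'
    lei_mem := fun j => by rw [hS]; exact (inv_pos.2 (hle j)).le
    mu_mem := fun j => by rw [hS]; exact (hμ0 j).le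
    mui_mem := fun j => by rw [hS]; exact (inv_pos.2 (hμ0 j)).le
    mu_mul := fun j => mul_inv_cancel₀ (hμ0 j).ne'
    dl_mem := fun j => by rw [hS]; exact (inv_pos.2 (hμi j)).le
    dl_mul := fun j => mul_inv_cancel₀ (hμi j).ne'
    r_mem := fun j => by rw [hS]; exact zero_le_one
    ri_mem := fun j => by rw [hS]; exact zero_le_one
    r_mul := fun j => one_mul 1 }, fun j => rfl, fun j => rfl, fun j => rfl⟩
  refine ⟨D, fun j => ⟨?_, hDmu j⟩⟩
  have hDG : ∀ j, D.G j = (G j).1 := by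
    intro j
    refine sl_ext (D.lei_mul j) ?_ ?_
    · rw [D.G_nu, hDnu, hDw, hDmu]
      exact (hGw j).symm
    · rw [D.G_nu', hDnu, hDw]
      exact (hGw' j).symm
  rw [Dat.c, hDG, hDG, hGs1 j, mul_neg, inv_mul_cancel_left, neg_neg]

end Pool.Agent.ToMx
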