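import Pool.Agent.Lib.MP_305fdd_al.To.Mx.Poly
import Pool.Agent.Lib.MP_305fdd_al.To.Eu.Euler

/-! # MP_305fdd_al : torsion room, maximal representations and charts: signs, eigenvectors -/

set_option autoImplicit false

namespace Pool.Agent.ToMx

open Real Pool.Agent.ToC Pool.Agent.ToEu Pool.Agent.Su

/-- the signs as central matrices -/
noncomputable def sgn2 : ℤˣ →* SL2 where
  toFun u := if u = 1 then 1 else -1
  map_one' := if_pos rfl
  map_mul' u v := by
    rcases Int.units_eq_one_or u with rfl | rfl <;> rcases Int.units_eq_one_or v with rfl | rfl <;>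
      simp

theorem sgn2_one : sgn2 1 = 1 := map_one _

theorem sgn2_neg_one : sgn2 (-1) = -1 := by
  show (if (-1 : ℤˣ) = 1 then (1 : SL2) else -1) = -1
  rw [if_neg (by decide)]

theorem sgn2_comm (u : ℤˣ) (A : SL2) : sgn2 u * A = A * sgn2 u := by
  rcases Int.units_eq_one_or u with rfl | rfl
  · rw [sgn2_one, one_mul, mul_one]
  · rw [sgn2_neg_one]
    simp

theorem sgn2_mul_cases (u : ℤˣ) (A : SL2) : sgn2 u * A = A ∨ sgn2 u * A = -A := by
  rcases Int.units_eq_one_or u with rfl | rfl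
  · left; rw [sgn2_one, one_mul]
  · right; rw [sgn2_neg_one]; simp

theorem sgn2_mul_self (u : ℤˣ) (A : SL2) : sgn2 u * (sgn2 u * A) = A := by
  rcases Int.units_eq_one_or u with rfl | rfl
  · rw [sgn2_one, one_mul, one_mul]
  · rw [sgn2_neg_one]; simp

theorem sgn2_val (u : ℤˣ) (A : SL2) : (sgn2 u * A).1 = ((u : ℤ) : ℝ) • A.1 := by
  rcases Int.units_eq_one_or u with rfl | rfl
  · rw [sgn2_one, one_mul]; simp
  · rw [sgn2_neg_one]
    simp

/-- twist of a representation by a character of order two -/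
noncomputable def tw {Γ : Type} [Group Γ] (χ : Γ →* ℤˣ) (ρ : Γ →* SL2) : Γ →* SL2 where
  toFun x := sgn2 (χ x) * ρ x
  map_one' := by rw [map_one, map_one, map_one, one_mul]
  map_mul' x y := by
    rw [map_mul, map_mul, map_mul, mul_assoc, mul_assoc]
    congr 1
    rw [← mul_assoc, sgn2_comm, mul_assoc]

theorem tw_apply {Γ : Type} [Group Γ] (χ : Γ →* ℤˣ) (ρ : Γ →* SL2) (x : Γ) :
    tw χ ρ x = sgn2 (χ x) * ρ x := rfl

theorem tw_tw {Γ : Type} [Group Γ] (χ : Γ →* ℤˣ) (ρ : Γ →* SL2) : tw χ (tw χ ρ) = ρ := by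
  ext1 x
  rw [tw_apply, tw_apply, sgn2_mul_self]

/-- characters of the surface group with given values -/
theorem exists_char {g : ℕ} (e d : Fin g → ℤˣ) : ∃ χ : SurfaceGroup g →* ℤˣ,
    (∀ i, χ (sa g i) = e i) ∧ ∀ i, χ (sb g i) = d i := by
  refine ⟨surfLift e d ?_, fun i => surfLift_sa _ _ _ _, fun i => surfLift_sb _ _ _ _⟩
  have h : ∀ i, e i * d i * (e i)⁻¹ * (d i)⁻¹ = 1 := fun i => by
    rw [mul_comm (e i), mul_inv_cancel_right, mul_inv_cancel]
  simp only [h]
  simp

theorem eu_tw {g : ℕ} (χ : SurfaceGroup g →* ℤˣ) (ρ : SurfaceGroup g →* SL2) :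
    eu (tw χ ρ) = eu ρ :=
  eu_sign _ _ (fun _ => sgn2_mul_cases _ _) (fun _ => sgn2_mul_cases _ _)

/-- the larger eigenvalue as a function of the trace -/
noncomputable def big (t : ℝ) : ℝ := (t + √(t ^ 2 - 4)) / 2

theorem big_spec {t : ℝ} (h : 2 < t) : 1 < big t ∧ (big t) ^ 2 - t * big t + 1 = 0 := by
  have h1 : 0 < √(t ^ 2 - 4) := Real.sqrt_pos.2 (by nlinarith)
  have h2 : √(t ^ 2 - 4) ^ 2 = t ^ 2 - 4 := Real.sq_sqrt (by nlinarith)
  constructor
  · unfold big; linarith
  · unfold big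
    nlinarith

/-- eigenvectors of hyperbolic elements -/
theorem exists_eig {A : SL2} {l : ℝ} (h : l ^ 2 - A.1.trace * l + 1 = 0) :
    ∃ x : ℝ, ac A (ev x) = l • ev x := by
  have hA := det_eq A
  rw [Matrix.trace_fin_two] at h
  have h0 : (A.1 - l • (1 : Matrix (Fin 2) (Fin 2) ℝ)).det = 0 := by
    rw [Matrix.det_fin_two]
    simp only [Matrix.sub_apply, Matrix.smul_apply, Matrix.one_apply_eq, smul_eq_mul, mul_one,
      Matrix.one_apply_ne (show (0 : Fin 2) ≠ 1 by decide),
      Matrix.one_apply_ne (show (1 : Fin 2) ≠ 0 by decide), mul_zero, sub_zero]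
    linear_combination h + hA
  obtain ⟨v, hv, hv0⟩ := Matrix.exists_mulVec_eq_zero_iff.2 h0
  obtain ⟨c, x, hc, hcx⟩ := exists_ev hv
  have h1 : ac A v = l • v := by
    rw [Matrix.sub_mulVec, Matrix.smul_mulVec, Matrix.one_mulVec, sub_eq_zero] at hv0
    exact hv0
  refine ⟨x, ?_⟩
  rw [hcx, ac_smul, smul_comm] at h1
  exact smul_right_injective _ hc.ne' h1

/-- a lift with a fixed point fixes all positive eigenrays -/
theorem lift_fix {A : SL2} {f : CircleDeg1Liftˣ} (hf : (A, f) ∈ Tld) {x y l : ℝ} (hl : 0 < l)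
    (hx : (f : CircleDeg1Lift) x = x) (hy : ac A (ev y) = l • ev y) :
    (f : CircleDeg1Lift) y = y := by
  obtain ⟨c, hc, h1⟩ := ac_ev hf y
  rw [hy] at h1
  have h2 : ev y = (c / l) • ev ((f : CircleDeg1Lift) y) := by
    funext i
    have := congrFun h1 i
    simp only [Pi.smul_apply, smul_eq_mul] at this ⊢
    field_simp
    linarith
  obtain ⟨m, hm⟩ := ev_inj (by positivity) h2
  have h3 := disp_lt f x y
  have h4 := disp_lt f y x
  rw [hx] at h3 h4
  have h5 : (-1 : ℝ) < ((2 * m : ℤ) : ℝ) := by push_cast; linarith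
  have h6 : ((2 * m : ℤ) : ℝ) < 1 := by push_cast; linarith
  have h7 : -1 < 2 * m := by exact_mod_cast h5
  have h8 : 2 * m < 1 := by exact_mod_cast h6
  have h9 : m = 0 := by omega
  rw [h9] at hm
  push_cast at hm
  linarith

theorem prod_pair {X : Type*} [Group X] (x : ℤ → X) (n : ℕ) :
    (List.ofFn fun i : Fin (2 * n) => x (i : ℕ)).prod =
      (List.ofFn fun i : Fin n => x (2 * (i : ℕ)) * x (2 * (i : ℕ) + 1)).prod := by
  have key : ∀ m : ℕ, (List.ofFn fun i : Fin (m + 2) => x (i : ℕ)).prod =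
      (List.ofFn fun i : Fin m => x (i : ℕ)).prod * (x m * x (m + 1)) := by
    intro m
    simp only [List.ofFn_succ', List.concat_eq_append, List.prod_append,
        List.prod_singleton, Fin.val_castSucc, Fin.val_last]
    rw [mul_assoc]
    push_cast
    rfl
  induction n with
  | zero => simp
  | succ n ih =>
    have h1 := key (2 * n)
    rw [ih] at h1
    have h2 : (List.ofFn fun i : Fin (n + 1) => x (2 * (i : ℕ)) * x (2 * (i : ℕ) + 1)).prod =
        (List.ofFn fun i : Fin n => x (2 * (i : ℕ)) * x (2 * (i : ℕ) + 1)).prod *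
          (x (2 * (n : ℕ)) * x (2 * (n : ℕ) + 1)) := by
      rw [List.ofFn_succ', List.concat_eq_append, List.prod_append, List.prod_singleton]
      simp only [Fin.val_castSucc, Fin.val_last]
    rw [h2]
    push_cast at h1
    exact h1

end Pool.Agent.ToMx
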