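import Pool.Agent.Lib.MP_305fdd_al.To.Ch.Basic
import Pool.Agent.Lib.MP_305fdd_al.To.Eu.Wood
import Pool.Agent.Lib.MP_305fdd_al.To.Eu.Exist
import Pool.Agent.Lib.MP_305fdd_al.To.Mx.Ord

/-! # MP_305fdd_al : torsion room, maximal representations and charts: rays and lifts -/

set_option autoImplicit false

namespace Pool.Agent.ToMx

open Real Pool.Agent.ToC Pool.Agent.ToEu

/-- the unit vector of angle `π x` -/
noncomputable def ev (x : ℝ) : Fin 2 → ℝ := ![cos (π * x), sin (π * x)]

@[simp] theorem ev_zero_apply (x : ℝ) : ev x 0 = cos (π * x) := rfl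
@[simp] theorem ev_one_apply (x : ℝ) : ev x 1 = sin (π * x) := rfl

theorem dt_ev (x y : ℝ) : dt (ev x) (ev y) = sin (π * (y - x)) := by
  simp only [dt, ev_zero_apply, ev_one_apply]
  rw [mul_sub, sin_sub]
  ring

theorem dt_ev_pos {x y : ℝ} (h1 : x < y) (h2 : y < x + 1) : 0 < dt (ev x) (ev y) := by
  rw [dt_ev]
  apply sin_pos_of_pos_of_lt_pi
  · have := pi_pos
    have : 0 < y - x := by linarith
    positivity
  · have := pi_pos
    nlinarith

theorem ev_add_one (x : ℝ) : ev (x + 1) = - ev x := by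
  funext i
  fin_cases i
  · simp only [Fin.zero_eta, Fin.isValue, ev_zero_apply, Pi.neg_apply]
    rw [mul_add, mul_one, cos_add_pi]
  · simp only [Fin.mk_one, Fin.isValue, ev_one_apply, Pi.neg_apply]
    rw [mul_add, mul_one, sin_add_pi]

theorem ev_ne (x : ℝ) : ev x ≠ 0 := by
  intro h
  have h1 := congrFun h 0
  have h2 := congrFun h 1
  simp only [ev_zero_apply, ev_one_apply, Pi.zero_apply] at h1 h2
  have := sin_sq_add_cos_sq (π * x)
  rw [h1, h2] at this
  norm_num at this

theorem exists_ev {v : Fin 2 → ℝ} (hv : v ≠ 0) : ∃ c x : ℝ, 0 < c ∧ v = c • ev x := by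
  have hz : (⟨v 0, v 1⟩ : ℂ) ≠ 0 := by
    intro h
    apply hv
    funext i
    fin_cases i
    · exact congrArg Complex.re h
    · exact congrArg Complex.im h
  refine ⟨‖(⟨v 0, v 1⟩ : ℂ)‖, Complex.arg ⟨v 0, v 1⟩ / π, norm_pos_iff.2 hz, ?_⟩
  have hpi : π * (Complex.arg ⟨v 0, v 1⟩ / π) = Complex.arg ⟨v 0, v 1⟩ := by
    field_simp
  funext i
  fin_cases i
  · simp only [Fin.zero_eta, Fin.isValue, Pi.smul_apply, ev_zero_apply, smul_eq_mul, hpi]
    rw [Complex.norm_mul_cos_arg]
  · simp only [Fin.mk_one, Fin.isValue, Pi.smul_apply, ev_one_apply, smul_eq_mul, hpi]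
    rw [Complex.norm_mul_sin_arg]

theorem ev_inj {x y c : ℝ} (hc : 0 < c) (h : ev x = c • ev y) : ∃ m : ℤ, x = y + 2 * m := by
  refine ray_eq hc ?_ ?_
  · simpa using congrFun h 0
  · simpa using congrFun h 1

theorem ev_add_two_int (x : ℝ) (m : ℤ) : ev (x + 2 * m) = ev x := by
  funext i
  have h : π * (x + 2 * m) = π * x + m * (2 * π) := by ring
  fin_cases i
  · simp only [Fin.zero_eta, Fin.isValue, ev_zero_apply]
    rw [h, cos_add_int_mul_two_pi]
  · simp only [Fin.mk_one, Fin.isValue, ev_one_apply]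
    rw [h, sin_add_int_mul_two_pi]

theorem ev_add_int_cases (x : ℝ) (m : ℤ) : ev (x + m) = ev x ∨ ev (x + m) = - ev x := by
  rcases Int.even_or_odd' m with ⟨n, rfl | rfl⟩
  · left
    push_cast
    exact ev_add_two_int x n
  · right
    push_cast
    rw [← add_assoc, ev_add_one, ev_add_two_int]

theorem isLift_iff {A : SL2} {f : ℝ → ℝ} :
    IsLift A f ↔ ∀ x, ∃ c : ℝ, 0 < c ∧ ac A (ev x) = c • ev (f x) := by
  refine forall_congr' fun x => exists_congr fun c => and_congr_right fun _ => ?_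
  constructor
  · rintro ⟨h1, h2⟩
    funext i
    fin_cases i
    · simpa [ac_zero_apply] using h1
    · simpa [ac_one_apply] using h2
  · intro h
    have h1 := congrFun h 0
    have h2 := congrFun h 1
    rw [ac_zero_apply] at h1
    rw [ac_one_apply] at h2
    exact ⟨by simpa using h1, by simpa using h2⟩

/-- a positive eigenvector is a fixed ray: some lift fixes it -/
theorem exists_lift_fix {A : SL2} {x l : ℝ} (hl : 0 < l) (h : ac A (ev x) = l • ev x) :
    ∃ f : CircleDeg1Liftˣ, (A, f) ∈ Tld ∧ (f : CircleDeg1Lift) x = x := by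
  obtain ⟨f, hf⟩ := exists_lift A
  obtain ⟨c, hc, h1⟩ := isLift_iff.1 hf x
  rw [h] at h1
  have h2 : ev x = (c / l) • ev ((f : CircleDeg1Lift) x) := by
    funext i
    have := congrFun h1 i
    simp only [Pi.smul_apply, smul_eq_mul] at this ⊢
    field_simp
    linarith
  obtain ⟨m, hm⟩ := ev_inj (by positivity) h2
  refine ⟨zt (2 * m) * f, ?_, ?_⟩
  · have := Tld.mul_mem (even_mem m) hf
    rwa [Prod.mk_mul_mk, one_mul] at this
  · rw [u_mul_apply, zt_apply]
    push_cast
    linarith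

/-- one step of the back polygon -/
theorem ac_ev {A : SL2} {f : CircleDeg1Liftˣ} (h : (A, f) ∈ Tld) (x : ℝ) :
    ∃ c : ℝ, 0 < c ∧ ac A (ev x) = c • ev ((f : CircleDeg1Lift) x) := isLift_iff.1 h x

end Pool.Agent.ToMx
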